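import Pool.Agent.V11109.Conj.Main

/-!
# The example
-/

set_option autoImplicit false
set_option linter.style.haveILetI false
set_option linter.unusedSectionVars false

open scoped ComplexOrder InnerProductSpace Topology

namespace Pool.Agent.V11109.Conj

open Pool.Agent.V11109.Fock Pool.Agent.V11109.PureExt

universe u

section Key

variable {D : Type u} [CStarAlgebra D] {ω : D →L[ℂ] ℂ} {t : ℕ → D} {S₀ S₁ : D}

lemma key_mon (h1 : ω 1 = 1) {T T' : D} (c : ℂ) (hTT : star T * T' = c • (1 : D))
    (ht : ∀ i, star T * t i = 0)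
    (ht' : ∀ i, star (t i) * T' = 0) (hω : ∀ i y, ω (t i * y) = 0)
    (hω' : ∀ i y, ω (y * star (t i)) = 0) (v w : List ℕ) :
    star T * mon t v w * T' = (c * ω (mon t v w)) • (1 : D) := by
  cases v with
  | cons i v =>
    have e1 : star T * mon t (i :: v) w * T' = (star T * t i) * (sw t v * star (sw t w) * T') := by
      rw [mon, sw_cons]; simp only [mul_assoc]
    have e2 : ω (mon t (i :: v) w) = 0 := by
      rw [mon, sw_cons, mul_assoc, hω]
    rw [e1, ht, zero_mul, e2, mul_zero, zero_smul]
  | nil =>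
    cases w with
    | cons i w =>
      have e1 : star T * mon t [] (i :: w) * T'
          = star T * (star (sw t w) * (star (t i) * T')) := by
        rw [mon, sw_cons, sw_nil, star_mul, one_mul]; simp only [mul_assoc]
      have e2 : ω (mon t [] (i :: w)) = 0 := by
        rw [mon, sw_cons, star_mul, ← mul_assoc, hω']
      rw [e1, ht', mul_zero, mul_zero, e2, mul_zero, zero_smul]
    | nil =>
      rw [mon_nil, h1, mul_one, mul_one, hTT]

lemma key_closure (h1 : ω 1 = 1) {T T' : D} (c : ℂ) (hTT : star T * T' = c • (1 : D))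
    (ht : ∀ i, star T * t i = 0)
    (ht' : ∀ i, star (t i) * T' = 0) (hω : ∀ i y, ω (t i * y) = 0)
    (hω' : ∀ i y, ω (y * star (t i)) = 0) {y : D} (hy : y ∈ closure (monSpan t : Set D)) :
    star T * y * T' = (c * ω y) • (1 : D) := by
  have hcl : IsClosed {y : D | star T * y * T' = (c * ω y) • (1 : D)} :=
    isClosed_eq (by fun_prop) (by fun_prop)
  refine hcl.closure_subset_iff.mpr ?_ hy
  intro y hy
  have hy' : y ∈ monSpan t := hy
  clear hy
  rw [monSpan] at hy'
  simp only [Set.mem_ofPred_eq]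
  induction hy' using Submodule.span_induction with
  | mem x hx =>
    obtain ⟨v, w, rfl⟩ := hx
    exact key_mon h1 c hTT ht ht' hω hω' v w
  | zero => simp
  | add x y _ _ hx hy =>
    rw [mul_add, add_mul, hx, hy, map_add, mul_add, add_smul]
  | smul k x _ hx =>
    rw [mul_smul_comm, smul_mul_assoc, hx, map_smul, smul_eq_mul, smul_smul]
    congr 1
    ring

variable {A : Type u} [CStarAlgebra A]

lemma map_sw {D : Type} [CStarAlgebra D] (ι : A →⋆ₐ[ℂ] D) {s : ℕ → A} {t : ℕ → D}
    (h : ∀ i, ι (s i) = t i) (v : List ℕ) : ι (sw s v) = sw t v := by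
  induction v with
  | nil => simp
  | cons k v ih => rw [sw_cons, sw_cons, map_mul, h, ih]

lemma mem_closure_of_generates {D : Type} [CStarAlgebra D] (ι : A →⋆ₐ[ℂ] D) {s : ℕ → A}
    {t : ℕ → D} (hs : IsCuntzFamily s) (hgen : Generates s)
    (h : ∀ i, ι (s i) = t i) (x : A) : ι x ∈ closure (monSpan t : Set D) := by
  have hcont : Continuous ι := by
    have : ∀ x, ‖ι x‖ ≤ ‖x‖ := fun x => NonUnitalStarAlgHom.norm_apply_le ι x
    exact AddMonoidHomClass.continuous_of_bound ι 1 (fun x => by rw [one_mul]; exact this x)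
  have h1 : x ∈ closure (alg hs : Set A) := by
    have h2 : x ∈ (StarAlgebra.adjoin ℂ (Set.range s)).topologicalClosure := by
      rw [hgen]; exact StarSubalgebra.mem_top
    have h3 : StarAlgebra.adjoin ℂ (Set.range s) ≤ alg hs := by
      refine StarAlgebra.adjoin_le ?_
      rintro _ ⟨i, rfl⟩
      exact s_mem_alg hs i
    rw [← SetLike.mem_coe, StarSubalgebra.topologicalClosure_coe] at h2
    exact closure_mono h3 h2
  have h2 : ι x ∈ closure (ι '' (alg hs : Set A)) :=
    image_closure_subset_closure_image hcont ⟨x, h1, rfl⟩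
  refine closure_mono ?_ h2
  rintro _ ⟨y, hy, rfl⟩
  have hy' : y ∈ monSpan s := hy
  clear hy
  rw [monSpan] at hy'
  show ι y ∈ monSpan t
  induction hy' using Submodule.span_induction with
  | mem x hx =>
    obtain ⟨v, w, rfl⟩ := hx
    rw [mon, map_mul, map_star, map_sw ι h, map_sw ι h]
    exact Submodule.subset_span ⟨v, w, rfl⟩
  | zero => rw [map_zero]; exact Submodule.zero_mem _
  | add x y _ _ hx hy => rw [map_add]; exact Submodule.add_mem _ hx hy
  | smul k x _ hx => rw [map_smul]; exact Submodule.smul_mem _ k hx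

end Key

section Sub

variable {D : Type u} [CStarAlgebra D] {t : ℕ → D} (ht : IsCuntzFamily t)

/-- the C*-algebra generated by a Cuntz family -/
noncomputable def OT : StarSubalgebra ℂ D := (alg ht).topologicalClosure

instance : IsClosed (OT ht : Set D) := StarSubalgebra.isClosed_topologicalClosure _

noncomputable instance : CStarAlgebra (OT ht) := inferInstance

/-- its generators -/
noncomputable def st (i : ℕ) : OT ht :=
  ⟨t i, StarSubalgebra.le_topologicalClosure _ (s_mem_alg ht i)⟩

lemma st_cuntz : IsCuntzFamily (st ht) where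
  iso i := Subtype.ext (ht.iso i)
  orth i j h := Subtype.ext (ht.orth i j h)

lemma coe_sw_st (v : List ℕ) : ((sw (st ht) v : OT ht) : D) = sw t v := by
  induction v with
  | nil => rfl
  | cons k v ih => rw [sw_cons, sw_cons, ← ih]; rfl

lemma sw_st_mem (v : List ℕ) : sw (st ht) v ∈ StarAlgebra.adjoin ℂ (Set.range (st ht)) := by
  induction v with
  | nil => exact one_mem _
  | cons k v ih => exact mul_mem (StarAlgebra.subset_adjoin ℂ _ ⟨k, rfl⟩) ih

lemma st_generates : Generates (st ht) := by
  rw [Generates, eq_top_iff]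
  intro x _
  rw [← SetLike.mem_coe, StarSubalgebra.topologicalClosure_coe, closure_subtype]
  have hx : (x : D) ∈ closure (alg ht : Set D) := by
    have h1 : (x : D) ∈ ((alg ht).topologicalClosure : Set D) := x.2
    rwa [StarSubalgebra.topologicalClosure_coe] at h1
  refine closure_mono ?_ hx
  intro y hy
  have hy' : y ∈ monSpan t := hy
  clear hy
  rw [monSpan] at hy'
  induction hy' using Submodule.span_induction with
  | mem y hy =>
    obtain ⟨v, w, rfl⟩ := hy
    refine ⟨mon (st ht) v w, mul_mem (sw_st_mem ht v) (star_mem (sw_st_mem ht w)), ?_⟩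
    rw [mon, mon, ← coe_sw_st ht, ← coe_sw_st ht]
    rfl
  | zero => exact ⟨0, zero_mem _, rfl⟩
  | add y z _ _ h1 h2 =>
    obtain ⟨a, ha, rfl⟩ := h1
    obtain ⟨b, hb, rfl⟩ := h2
    exact ⟨a + b, add_mem ha hb, rfl⟩
  | smul c y _ h1 =>
    obtain ⟨a, ha, rfl⟩ := h1
    exact ⟨c • a, SMulMemClass.smul_mem c ha, rfl⟩

end Sub

section Concrete

/-- the generators with index at least two -/
noncomputable def tt (i : ℕ) : O ℕ := S (i + 2)

lemma tt_cuntz : IsCuntzFamily tt where
  iso i := S_cuntz.iso _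
  orth i j h := S_cuntz.orth _ _ (fun h' => h (by omega))

lemma vac_S_mul (k : ℕ) (y : O ℕ) : vac ℕ (S k * y) = 0 := by
  apply mul_eq_zero_left vac_mem.1
  have := vac_mon_left k [] [k]
  simpa [mon] using this

lemma vac_mul_star_S (k : ℕ) (y : O ℕ) : vac ℕ (y * star (S k)) = 0 := by
  apply mul_eq_zero_right vac_mem.1
  rw [star_star]
  exact vac_S_mul k _

variable {A : Type u} [CStarAlgebra A]

theorem notConjugate_of_hom {s : ℕ → A} (hs : IsCuntzFamily s) (hgen : Generates s)
    (ι : A →⋆ₐ[ℂ] O ℕ) (hι : ∀ i, ι (s i) = tt i) : NotConjugate A := by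
  have hne : ∀ (z i : ℕ), z < 2 → z ≠ i + 2 := fun z i hz => by omega
  have key : ∀ (z z' : ℕ), z < 2 → z' < 2 → ∀ (c : ℂ), star (S z) * S z' = c • (1 : O ℕ) →
      ∀ x, star (S z) * ι x * S z' = (c * vac ℕ (ι x)) • (1 : O ℕ) := by
    intro z z' hz hz' c hc x
    exact key_closure vac_one c hc (fun i => S_cuntz.orth _ _ (hne z i hz))
      (fun i => S_cuntz.orth _ _ (hne z' i hz').symm) (fun i y => vac_S_mul _ y)
      (fun i y => vac_mul_star_S _ y) (mem_closure_of_generates ι hs hgen hι x)
  refine abstract_main (ω := vac ℕ) vac_mem vac_one (s 0) (s 1) ι (S₀ := S 0) (S₁ := S 1)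
    ?_ ?_ ?_ (S_cuntz.iso 0) (S_cuntz.iso 1) (S_cuntz.orth 0 1 (by norm_num)) ?_ ?_ ?_ ?_
    separable_O simple_O pureInf_O
  · rw [hι]; exact tt_cuntz.iso 0
  · rw [hι]; exact tt_cuntz.iso 1
  · rw [hι, hι]; exact tt_cuntz.orth 0 1 (by norm_num)
  · intro x
    have := key 0 0 (by norm_num) (by norm_num) 1 (by rw [one_smul]; exact S_cuntz.iso 0) x
    rwa [one_mul] at this
  · intro x
    have := key 1 1 (by norm_num) (by norm_num) 1 (by rw [one_smul]; exact S_cuntz.iso 1) x
    rwa [one_mul] at this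
  · intro x
    have := key 0 1 (by norm_num) (by norm_num) 0
      (by rw [zero_smul]; exact S_cuntz.orth 0 1 (by norm_num)) x
    rwa [zero_mul, zero_smul] at this
  · intro x
    have := key 1 0 (by norm_num) (by norm_num) 0
      (by rw [zero_smul]; exact S_cuntz.orth 1 0 (by norm_num)) x
    rwa [zero_mul, zero_smul] at this

theorem notConjugate_universal {s : ℕ → A} (hs : IsCuntzInfty s) : NotConjugate A := by
  obtain ⟨ι, hι⟩ := hs.lift (O ℕ) tt tt_cuntz
  exact notConjugate_of_hom hs.family hs.generates ι hι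

theorem notConjugate_OT : NotConjugate (OT tt_cuntz) :=
  notConjugate_of_hom (st_cuntz tt_cuntz) (st_generates tt_cuntz) (OT tt_cuntz).subtype
    (fun _ => rfl)

end Concrete

end Pool.Agent.V11109.Conj
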