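import Pool.Agent.V11109.Conj.PI

/-!
# Two unital maps from the Cuntz algebra which agree under a state but are not approximately
conjugate by state preserving automorphisms
-/

set_option autoImplicit false
set_option linter.style.haveILetI false
set_option linter.unusedSectionVars false

open scoped ComplexOrder InnerProductSpace Topology

namespace Pool.Agent.V11109.Conj

open Pool.Agent.V11109.Fock Pool.Agent.V11109.PureExt

universe u

/-- The sequence `s` generates `A` as a unital C*-algebra. -/
def Generates {A : Type u} [CStarAlgebra A] (s : ℕ → A) : Prop :=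
  (StarAlgebra.adjoin ℂ (Set.range s)).topologicalClosure = ⊤

/-- `A` with the sequence `s` is the universal unital C*-algebra generated by isometries
`s 0, s 1, ...` with `(s i)^* (s j) = 0` for `i ≠ j`, i.e. it is the Cuntz algebra `O_∞`. -/
structure IsCuntzInfty {A : Type u} [CStarAlgebra A] (s : ℕ → A) : Prop where
  family : IsCuntzFamily s
  generates : Generates s
  lift : ∀ (B : Type) [CStarAlgebra B] (t : ℕ → B), IsCuntzFamily t →
    ∃ φ : A →⋆ₐ[ℂ] B, ∀ i, φ (s i) = t i

/-- There are a separable, simple, purely infinite unital C*-algebra `D`, a state `μ` on `D` and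
two unital homomorphisms `φ₁`, `φ₂ : A → D` with `μ ∘ φ₁ = μ ∘ φ₂`, some `ε > 0` and a finite set
`F` such that no `μ`-preserving automorphism maps `φ₁` to `φ₂` on `F` up to `ε`. -/
def NotConjugate (A : Type u) [CStarAlgebra A] : Prop :=
  ∃ (D : Type) (_ : CStarAlgebra D) (μ : D →L[ℂ] ℂ) (φ₁ φ₂ : A →⋆ₐ[ℂ] D),
    TopologicalSpace.SeparableSpace D ∧ IsSimpleRing D ∧ IsPurelyInfinite D ∧ μ ∈ States D ∧
    (∀ a, μ (φ₁ a) = μ (φ₂ a)) ∧ ∃ ε : ℝ, 0 < ε ∧ ∃ F : Finset A,
      ∀ α : D ≃⋆ₐ[ℂ] D, (∀ x, μ (α x) = μ x) → ∃ a ∈ F, ε ≤ ‖φ₂ a - α (φ₁ a)‖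

section Hadamard

variable {R : Type*} [Ring R] [StarRing R] [Algebra ℂ R] [StarModule ℂ R]

/-- `1/√2` -/
noncomputable def r : ℂ := ((Real.sqrt 2)⁻¹ : ℝ)

lemma r_mul : r * r = 1 / 2 := by
  rw [r, ← Complex.ofReal_mul, ← mul_inv, Real.mul_self_sqrt (by norm_num)]
  norm_num

lemma star_r : star r = r := Complex.conj_ofReal _

/-- the Hadamard unitary on the ranges of two isometries -/
noncomputable def had (a d : R) : R :=
  1 - (a * star a + d * star d) +
    r • (a * star a + a * star d + d * star a - d * star d)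

lemma star_had (a d : R) : star (had a d) = had a d := by
  simp only [had, star_add, star_sub, star_one, star_mul, star_star, star_smul, star_r]
  congr 2
  abel

variable {a d : R} (ha : star a * a = 1) (hd : star d * d = 1) (had' : star a * d = 0)

include ha had' in
lemma had_left : had a d * a = r • (a + d) := by
  have h1 : star d * a = 0 := by
    have := congrArg star had'
    simpa using this
  simp only [had, add_mul, sub_mul, smul_mul_assoc, mul_assoc, ha, h1, mul_one, mul_zero, one_mul,
    add_zero, sub_zero, sub_self, zero_add]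

include hd had' in
lemma had_right : had a d * d = r • (a - d) := by
  simp only [had, add_mul, sub_mul, smul_mul_assoc, mul_assoc, hd, had', mul_one, mul_zero,
    one_mul, add_zero, sub_self, zero_add]

lemma had_other {b : R} (h1 : star a * b = 0) (h2 : star d * b = 0) : had a d * b = b := by
  simp only [had, add_mul, sub_mul, smul_mul_assoc, mul_assoc, h1, h2, mul_zero,
    one_mul, add_zero, sub_zero, smul_zero]

include ha hd had' in
lemma had_sq : had a d * had a d = 1 := by
  have h1 := had_left ha had'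
  have h2 := had_right hd had'
  have h3 : had a d * had a d = had a d * (1 - (a * star a + d * star d) +
    r • (a * star a + a * star d + d * star a - d * star d)) := rfl
  rw [h3]
  have h4 : had a d * (1 - (a * star a + d * star d) +
      r • (a * star a + a * star d + d * star a - d * star d))
      = had a d - (had a d * a) * star a - (had a d * d) * star d
        + r • ((had a d * a) * star a + (had a d * a) * star d + (had a d * d) * star a
        - (had a d * d) * star d) := by
    simp only [mul_add, mul_sub, mul_one, mul_smul_comm, mul_assoc]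
    abel
  rw [h4, h1, h2]
  simp only [smul_mul_assoc, add_mul, sub_mul, ← smul_add, ← smul_sub, smul_smul, r_mul]
  rw [had]
  have h5 : (1 / 2 : ℂ) • (a * star a + d * star a + (a * star d + d * star d)
      + (a * star a - d * star a) - (a * star d - d * star d)) = a * star a + d * star d := by
    have : a * star a + d * star a + (a * star d + d * star d)
      + (a * star a - d * star a) - (a * star d - d * star d)
      = (2 : ℂ) • (a * star a + d * star d) := by
      rw [two_smul]; abel
    rw [this, smul_smul]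
    norm_num
  rw [h5]
  simp only [smul_add, smul_sub]
  abel

end Hadamard

section Abstract

variable {D : Type u} [CStarAlgebra D]

lemma rel_same {t S : D} (ht : star t * t = 1) (hS : star S * S = 1) :
    star (t * S) * (t * S) = 1 := by
  rw [star_mul, mul_assoc, ← mul_assoc (star t), ht, one_mul, hS]

lemma rel_t {t t' : D} (ht : star t * t' = 0) (S S' : D) : star (t * S) * (t' * S') = 0 := by
  rw [star_mul, mul_assoc, ← mul_assoc (star t), ht, zero_mul, mul_zero]

lemma rel_S {t S S' : D} (ht : star t * t = 1) (hS : star S * S' = 0) :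
    star (t * S) * (t * S') = 0 := by
  rw [star_mul, mul_assoc, ← mul_assoc (star t), ht, one_mul, hS]

/-- four isometries with orthogonal ranges -/
structure Four (a b c d : D) : Prop where
  aa : star a * a = 1
  bb : star b * b = 1
  cc : star c * c = 1
  dd : star d * d = 1
  ab : star a * b = 0
  ac : star a * c = 0
  ad : star a * d = 0
  ba : star b * a = 0
  bc : star b * c = 0
  bd : star b * d = 0
  ca : star c * a = 0
  cb : star c * b = 0
  cd : star c * d = 0
  da : star d * a = 0
  db : star d * b = 0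
  dc : star d * c = 0

/-- the unitary of the example -/
noncomputable def UU (a b c d : D) : D := had a d * had b c

lemma star_UU (a b c d : D) : star (UU a b c d) = had b c * had a d := by
  rw [UU, star_mul, star_had, star_had]

variable {a b c d : D} (h : Four a b c d)

include h

lemma UU_unitary : star (UU a b c d) * UU a b c d = 1 := by
  rw [star_UU, UU]
  calc had b c * had a d * (had a d * had b c)
      = had b c * (had a d * had a d) * had b c := by simp only [mul_assoc]
    _ = 1 := by rw [had_sq h.aa h.dd h.ad, mul_one, had_sq h.bb h.cc h.bc]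

lemma UU_unitary' : UU a b c d * star (UU a b c d) = 1 := by
  rw [star_UU, UU]
  calc had a d * had b c * (had b c * had a d)
      = had a d * (had b c * had b c) * had a d := by simp only [mul_assoc]
    _ = 1 := by rw [had_sq h.bb h.cc h.bc, mul_one, had_sq h.aa h.dd h.ad]

lemma UU_a : UU a b c d * a = r • (a + d) := by
  rw [UU, mul_assoc, had_other h.ba h.ca, had_left h.aa h.ad]

lemma UU_b : UU a b c d * b = r • (b + c) := by
  rw [UU, mul_assoc, had_left h.bb h.bc, mul_smul_comm, mul_add, had_other h.ab h.db,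
    had_other h.ac h.dc]

lemma star_UU_a : star (UU a b c d) * a = r • (a + d) := by
  rw [star_UU, mul_assoc, had_left h.aa h.ad, mul_smul_comm, mul_add, had_other h.ba h.ca,
    had_other h.bd h.cd]

lemma star_UU_c : star (UU a b c d) * c = r • (b - c) := by
  rw [star_UU, mul_assoc, had_other h.ac h.dc, had_right h.cc h.bc]

omit h

/-- the functional `x ↦ ω(a^* x a)` -/
noncomputable def cf (ω : D →L[ℂ] ℂ) (a : D) : D →L[ℂ] ℂ :=
  ω.comp (ContinuousLinearMap.mulLeftRight ℂ D (star a) a)

lemma cf_apply (ω : D →L[ℂ] ℂ) (a x : D) : cf ω a x = ω (star a * x * a) := rfl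

/-- the state of the example -/
noncomputable def mu (ω : D →L[ℂ] ℂ) (a b : D) : D →L[ℂ] ℂ :=
  (1 / 2 : ℂ) • (cf ω a + cf ω b)

lemma mu_apply (ω : D →L[ℂ] ℂ) (a b x : D) : mu ω a b x =
    1 / 2 * (ω (star a * x * a) + ω (star b * x * b)) := rfl

lemma mu_mem {ω : D →L[ℂ] ℂ} (hω : ω ∈ States D) (h1 : ω 1 = 1) (haa : star a * a = 1)
    (hbb : star b * b = 1) : mu ω a b ∈ States D := by
  refine ⟨fun x => ?_, le_antisymm ?_ ?_⟩
  · rw [mu_apply]
    have e : ∀ y : D, star y * (star x * x) * y = star (x * y) * (x * y) := fun y => by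
      rw [star_mul]; simp only [mul_assoc]
    rw [e, e]
    have h2 := hω.1 (x * a)
    have h3 := hω.1 (x * b)
    have h4 : (0 : ℂ) ≤ 1 / 2 := by
      rw [show (1 / 2 : ℂ) = ((1 / 2 : ℝ) : ℂ) by push_cast; rfl]
      exact Complex.zero_le_real.mpr (by norm_num)
    exact mul_nonneg h4 (add_nonneg h2 h3)
  · refine ContinuousLinearMap.opNorm_le_bound _ (by norm_num) fun x => ?_
    rw [mu_apply]
    have e : ∀ y : D, star y * y = 1 → ‖ω (star y * x * y)‖ ≤ ‖x‖ := fun y hy => by
      calc ‖ω (star y * x * y)‖ ≤ ‖ω‖ * ‖star y * x * y‖ := ω.le_opNorm _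
        _ = ‖star y * (x * y)‖ := by rw [hω.2, one_mul, mul_assoc]
        _ ≤ ‖x‖ := compress_norm hy x
    rw [norm_mul]
    calc ‖(1 / 2 : ℂ)‖ * ‖ω (star a * x * a) + ω (star b * x * b)‖
        ≤ 1 / 2 * (‖x‖ + ‖x‖) := by
          have h5 : ‖(1 / 2 : ℂ)‖ = 1 / 2 := by norm_num
          rw [h5]
          gcongr
          exact (norm_add_le _ _).trans (add_le_add (e a haa) (e b hbb))
      _ = 1 * ‖x‖ := by ring
  · have h2 := (mu ω a b).le_opNorm 1
    have h3 : mu ω a b 1 = 1 := by
      rw [mu_apply, mul_one, mul_one, haa, hbb, h1]; norm_num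
    have h4 : ‖(1 : D)‖ ≤ 1 := norm_iso_le (by simp)
    rw [h3, norm_one] at h2
    calc (1 : ℝ) ≤ ‖mu ω a b‖ * ‖(1 : D)‖ := h2
      _ ≤ ‖mu ω a b‖ * 1 := by gcongr
      _ = ‖mu ω a b‖ := mul_one _

/-- elements at distance at least `1/8` from the centralizer -/
lemma dist_centralizer {μ : D →L[ℂ] ℂ} (hμ : ‖μ‖ = 1) {q y x : D} (hy : ‖y‖ ≤ 1)
    (h1 : μ (y * q) - μ (q * y) = 1 / 4) (hx : ∀ z, μ (x * z) = μ (z * x)) :
    1 / 8 ≤ ‖q - x‖ := by
  have h2 : μ (y * (q - x)) - μ ((q - x) * y) = 1 / 4 := by
    rw [mul_sub, sub_mul, map_sub, map_sub, hx y, ← h1]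
    ring
  have h3 : ‖μ (y * (q - x))‖ ≤ ‖q - x‖ := by
    calc ‖μ (y * (q - x))‖ ≤ ‖μ‖ * (‖y‖ * ‖q - x‖) :=
          (μ.le_opNorm _).trans (by gcongr; exact norm_mul_le _ _)
      _ ≤ 1 * (1 * ‖q - x‖) := by rw [hμ]; gcongr
      _ = ‖q - x‖ := by ring
  have h4 : ‖μ ((q - x) * y)‖ ≤ ‖q - x‖ := by
    calc ‖μ ((q - x) * y)‖ ≤ ‖μ‖ * (‖q - x‖ * ‖y‖) :=
          (μ.le_opNorm _).trans (by gcongr; exact norm_mul_le _ _)
      _ ≤ 1 * (‖q - x‖ * 1) := by rw [hμ]; gcongr
      _ = ‖q - x‖ := by ring
  have h5 : (1 / 4 : ℝ) ≤ ‖q - x‖ + ‖q - x‖ := by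
    calc (1 / 4 : ℝ) = ‖μ (y * (q - x)) - μ ((q - x) * y)‖ := by rw [h2]; norm_num
      _ ≤ ‖μ (y * (q - x))‖ + ‖μ ((q - x) * y)‖ := norm_sub_le _ _
      _ ≤ _ := add_le_add h3 h4
  linarith

include h

/-- the second projection and the test element -/
lemma second_eval {ω : D →L[ℂ] ℂ} (h1 : ω 1 = 1) {p : D}
    (hpa : p * a = a) (hpb : p * b = 0) (hpc : p * c = c) (hpd : p * d = 0) :
    mu ω a b ((a * star d) * (star (UU a b c d) * p * UU a b c d))
      - mu ω a b ((star (UU a b c d) * p * UU a b c d) * (a * star d)) = 1 / 4 := by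
  have e1 : star (UU a b c d) * p * UU a b c d * a = (1 / 2 : ℂ) • (a + d) := by
    rw [mul_assoc, UU_a h, mul_smul_comm, mul_assoc, mul_add, hpa, hpd, add_zero, star_UU_a h,
      smul_smul, r_mul]
  have e2 : star (UU a b c d) * p * UU a b c d * b = (1 / 2 : ℂ) • (b - c) := by
    rw [mul_assoc, UU_b h, mul_smul_comm, mul_assoc, mul_add, hpb, hpc, zero_add, star_UU_c h,
      smul_smul, r_mul]
  rw [mu_apply, mu_apply]
  have f1 : star a * ((a * star d) * (star (UU a b c d) * p * UU a b c d)) * a
      = (1 / 2 : ℂ) • (1 : D) := by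
    calc star a * ((a * star d) * (star (UU a b c d) * p * UU a b c d)) * a
        = star a * ((a * star d) * (star (UU a b c d) * p * UU a b c d * a)) := by
          simp only [mul_assoc]
      _ = (1 / 2 : ℂ) • ((star a * a) * (star d * a + star d * d)) := by
          rw [e1]; simp only [mul_smul_comm, mul_assoc, mul_add]
      _ = _ := by rw [h.aa, h.da, h.dd, zero_add, mul_one]
  have f2 : star b * ((a * star d) * (star (UU a b c d) * p * UU a b c d)) * b = 0 := by
    calc star b * ((a * star d) * (star (UU a b c d) * p * UU a b c d)) * b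
        = (star b * a) * (star d * (star (UU a b c d) * p * UU a b c d * b)) := by
          simp only [mul_assoc]
      _ = 0 := by rw [h.ba, zero_mul]
  have f3 : star a * ((star (UU a b c d) * p * UU a b c d) * (a * star d)) * a = 0 := by
    calc star a * ((star (UU a b c d) * p * UU a b c d) * (a * star d)) * a
        = star a * (star (UU a b c d) * p * UU a b c d) * a * (star d * a) := by
          simp only [mul_assoc]
      _ = 0 := by rw [h.da, mul_zero]
  have f4 : star b * ((star (UU a b c d) * p * UU a b c d) * (a * star d)) * b = 0 := by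
    calc star b * ((star (UU a b c d) * p * UU a b c d) * (a * star d)) * b
        = star b * (star (UU a b c d) * p * UU a b c d) * a * (star d * b) := by
          simp only [mul_assoc]
      _ = 0 := by rw [h.db, mul_zero]
  rw [f1, f2, f3, f4, map_smul, h1, map_zero]
  norm_num

end Abstract

section AbstractMain

variable {A : Type u} [CStarAlgebra A] {D : Type} [CStarAlgebra D]

/-- conjugating a unital homomorphism by a unitary -/
noncomputable def conjHom (ι : A →⋆ₐ[ℂ] D) (U : D) (h1 : star U * U = 1) (h2 : U * star U = 1) :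
    A →⋆ₐ[ℂ] D where
  toFun x := star U * ι x * U
  map_one' := by rw [map_one, mul_one, h1]
  map_mul' x y := by
    rw [map_mul]
    calc star U * (ι x * ι y) * U = star U * ι x * (1 * (ι y * U)) := by
          rw [one_mul]; simp only [mul_assoc]
      _ = star U * ι x * ((U * star U) * (ι y * U)) := by rw [h2]
      _ = _ := by simp only [mul_assoc]
  map_zero' := by simp
  map_add' x y := by rw [map_add, mul_add, add_mul]
  commutes' z := by
    rw [AlgHomClass.commutes, Algebra.algebraMap_eq_smul_one, mul_smul_comm, mul_one,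
      smul_mul_assoc, h1]
  map_star' x := by
    rw [map_star, star_mul, star_mul, star_star, mul_assoc]

lemma conjHom_apply (ι : A →⋆ₐ[ℂ] D) (U : D) (h1 : star U * U = 1) (h2 : U * star U = 1) (x : A) :
    conjHom ι U h1 h2 x = star U * ι x * U := rfl

theorem abstract_main {ω : D →L[ℂ] ℂ} (hω : ω ∈ States D) (h1 : ω 1 = 1)
    (s₀ s₁ : A) (ι : A →⋆ₐ[ℂ] D) {S₀ S₁ : D}
    (t00 : star (ι s₀) * ι s₀ = 1) (t11 : star (ι s₁) * ι s₁ = 1) (t01 : star (ι s₀) * ι s₁ = 0)
    (S00 : star S₀ * S₀ = 1) (S11 : star S₁ * S₁ = 1) (S01 : star S₀ * S₁ = 0)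
    (k0 : ∀ x, star S₀ * ι x * S₀ = ω (ι x) • (1 : D))
    (k1 : ∀ x, star S₁ * ι x * S₁ = ω (ι x) • (1 : D))
    (k01 : ∀ x, star S₀ * ι x * S₁ = 0) (k10 : ∀ x, star S₁ * ι x * S₀ = 0)
    (hsep : TopologicalSpace.SeparableSpace D) (hsimple : IsSimpleRing D)
    (hpi : IsPurelyInfinite D) : NotConjugate A := by
  have t10 : star (ι s₁) * ι s₀ = 0 := by
    have := congrArg star t01
    simpa using this
  have S10 : star S₁ * S₀ = 0 := by
    have := congrArg star S01
    simpa using this
  obtain ⟨a, ha⟩ : ∃ a, a = ι s₀ * S₀ := ⟨_, rfl⟩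
  obtain ⟨b, hb⟩ : ∃ b, b = ι s₁ * S₀ := ⟨_, rfl⟩
  obtain ⟨c, hc⟩ : ∃ c, c = ι s₀ * S₁ := ⟨_, rfl⟩
  obtain ⟨d, hd⟩ : ∃ d, d = ι s₁ * S₁ := ⟨_, rfl⟩
  have h : Four a b c d := by
    rw [ha, hb, hc, hd]
    exact ⟨rel_same t00 S00, rel_same t11 S00, rel_same t00 S11, rel_same t11 S11,
      rel_t t01 _ _, rel_S t00 S01, rel_t t01 _ _, rel_t t10 _ _, rel_t t10 _ _, rel_S t11 S01,
      rel_S t00 S10, rel_t t01 _ _, rel_t t01 _ _, rel_t t10 _ _, rel_S t11 S10, rel_t t10 _ _⟩
  have e : ∀ (s s' : A) (T T' X : D), star (ι s * T) * X * (ι s' * T')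
      = star T * (star (ι s) * X * ι s') * T' := by
    intro s s' T T' X
    rw [star_mul]
    simp only [mul_assoc]
  have key : ∀ (s s' x : A), star (ι s) * ι x * ι s' = ι (star s * x * s') := by
    intro s s' x
    rw [map_mul, map_mul, map_star]
  have w1 : ∀ x, ω (star a * ι x * a) = ω (ι (star s₀ * x * s₀)) := fun x => by
    rw [ha, e, key, k0, map_smul, h1, smul_eq_mul, mul_one]
  have w2 : ∀ x, ω (star b * ι x * b) = ω (ι (star s₁ * x * s₁)) := fun x => by
    rw [hb, e, key, k0, map_smul, h1, smul_eq_mul, mul_one]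
  have w3 : ∀ x, ω (star c * ι x * c) = ω (ι (star s₀ * x * s₀)) := fun x => by
    rw [hc, e, key, k1, map_smul, h1, smul_eq_mul, mul_one]
  have w4 : ∀ x, ω (star d * ι x * d) = ω (ι (star s₁ * x * s₁)) := fun x => by
    rw [hd, e, key, k1, map_smul, h1, smul_eq_mul, mul_one]
  have w5 : ∀ x, star a * ι x * d = 0 := fun x => by rw [ha, hd, e, key, k01]
  have w6 : ∀ x, star d * ι x * a = 0 := fun x => by rw [ha, hd, e, key, k10]
  have w7 : ∀ x, star b * ι x * c = 0 := fun x => by rw [hb, hc, e, key, k01]
  have w8 : ∀ x, star c * ι x * b = 0 := fun x => by rw [hb, hc, e, key, k10]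
  refine ⟨D, inferInstance, mu ω a b, ι,
    conjHom ι (UU a b c d) (UU_unitary h) (UU_unitary' h), hsep, hsimple, hpi,
    mu_mem hω h1 h.aa h.bb, fun x => ?_, 1 / 8, by norm_num, {s₀ * star s₀}, fun α hα => ?_⟩
  · rw [conjHom_apply, mu_apply, mu_apply]
    have g1 : star a * (star (UU a b c d) * ι x * UU a b c d) * a
        = (1 / 2 : ℂ) • (star a * ι x * a + star d * ι x * d) := by
      calc star a * (star (UU a b c d) * ι x * UU a b c d) * a
          = star (UU a b c d * a) * ι x * (UU a b c d * a) := by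
            rw [star_mul]; simp only [mul_assoc]
        _ = (1 / 2 : ℂ) • (star (a + d) * ι x * (a + d)) := by
            rw [UU_a h, star_smul, star_r, smul_mul_assoc, smul_mul_assoc, mul_smul_comm,
              smul_smul, r_mul]
        _ = _ := by
            rw [star_add, add_mul, add_mul, mul_add, mul_add, w5, w6, add_zero, zero_add]
    have g2 : star b * (star (UU a b c d) * ι x * UU a b c d) * b
        = (1 / 2 : ℂ) • (star b * ι x * b + star c * ι x * c) := by
      calc star b * (star (UU a b c d) * ι x * UU a b c d) * b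
          = star (UU a b c d * b) * ι x * (UU a b c d * b) := by
            rw [star_mul]; simp only [mul_assoc]
        _ = (1 / 2 : ℂ) • (star (b + c) * ι x * (b + c)) := by
            rw [UU_b h, star_smul, star_r, smul_mul_assoc, smul_mul_assoc, mul_smul_comm,
              smul_smul, r_mul]
        _ = _ := by
            rw [star_add, add_mul, add_mul, mul_add, mul_add, w7, w8, add_zero, zero_add]
    rw [g1, g2, map_smul, map_smul, map_add, map_add, w1, w2, w3, w4]
    simp only [smul_eq_mul]
    ring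
  · refine ⟨s₀ * star s₀, Finset.mem_singleton_self _, ?_⟩
    obtain ⟨p, hp⟩ : ∃ p, p = ι (s₀ * star s₀) := ⟨_, rfl⟩
    have hp' : p = ι s₀ * star (ι s₀) := by rw [hp, map_mul, map_star]
    rw [conjHom_apply, ← hp]
    have hpa : p * a = a := by
      rw [hp', ha]
      calc ι s₀ * star (ι s₀) * (ι s₀ * S₀) = ι s₀ * (star (ι s₀) * ι s₀) * S₀ := by
            simp only [mul_assoc]
        _ = _ := by rw [t00, mul_one]
    have hpc : p * c = c := by
      rw [hp', hc]
      calc ι s₀ * star (ι s₀) * (ι s₀ * S₁) = ι s₀ * (star (ι s₀) * ι s₀) * S₁ := by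
            simp only [mul_assoc]
        _ = _ := by rw [t00, mul_one]
    have hpb : p * b = 0 := by
      rw [hp', hb]
      calc ι s₀ * star (ι s₀) * (ι s₁ * S₀) = ι s₀ * (star (ι s₀) * ι s₁) * S₀ := by
            simp only [mul_assoc]
        _ = _ := by rw [t01]; simp
    have hpd : p * d = 0 := by
      rw [hp', hd]
      calc ι s₀ * star (ι s₀) * (ι s₁ * S₁) = ι s₀ * (star (ι s₀) * ι s₁) * S₁ := by
            simp only [mul_assoc]
        _ = _ := by rw [t01]; simp
    have hps : star p = p := by rw [hp', star_mul, star_star]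
    have hap : star a * p = star a := by
      have := congrArg star hpa
      rwa [star_mul, hps] at this
    have hbp : star b * p = 0 := by
      have := congrArg star hpb
      rwa [star_mul, hps, star_zero] at this
    have hμp : ∀ z, mu ω a b (p * z) = mu ω a b (z * p) := by
      intro z
      rw [mu_apply, mu_apply]
      have i1 : star a * (p * z) * a = star a * z * a := by
        rw [← mul_assoc, hap]
      have i2 : star b * (p * z) * b = 0 := by
        rw [← mul_assoc, hbp, zero_mul, zero_mul]
      have i3 : star a * (z * p) * a = star a * z * a := by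
        rw [mul_assoc, mul_assoc, hpa, ← mul_assoc]
      have i4 : star b * (z * p) * b = 0 := by
        rw [mul_assoc, mul_assoc, hpb, mul_zero, mul_zero]
      rw [i1, i2, i3, i4]
    have hx : ∀ z, mu ω a b (α p * z) = mu ω a b (z * α p) := by
      intro z
      have j1 : α p * z = α (p * α.symm z) := by rw [map_mul, α.apply_symm_apply]
      have j2 : z * α p = α (α.symm z * p) := by rw [map_mul, α.apply_symm_apply]
      rw [j1, j2, hα, hα, hμp]
    have hy : ‖a * star d‖ ≤ 1 := by
      calc ‖a * star d‖ ≤ ‖a‖ * ‖star d‖ := norm_mul_le _ _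
        _ ≤ 1 * 1 := by
          rw [norm_star]
          gcongr
          · exact norm_iso_le h.aa
          · exact norm_iso_le h.dd
        _ = 1 := one_mul 1
    exact dist_centralizer (mu_mem hω h1 h.aa h.bb).2 hy
      (second_eval h h1 hpa hpb hpc hpd) hx

end AbstractMain

end Pool.Agent.V11109.Conj
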