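import Pool.Agent.V11109.PureExt.OK2

/-!
# Pure infiniteness and separability of the C*-algebra generated by creation operators
-/

set_option autoImplicit false
set_option linter.style.haveILetI false

open scoped ComplexOrder InnerProductSpace Topology

namespace Pool.Agent.V11109.Conj

open Pool.Agent.V11109.Fock Pool.Agent.V11109.PureExt

universe u

section Defs

variable {D : Type u} [CStarAlgebra D]

/-- `B` is hereditary: if `0 ≤ a ≤ b` and `b ∈ B` then `a ∈ B`. (Positive elements are the elements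
of the form `c^* c`.) -/
def IsHereditary (B : NonUnitalStarSubalgebra ℂ D) : Prop :=
  ∀ a b : D, (∃ c, a = star c * c) → (∃ c, b - a = star c * c) → b ∈ B → a ∈ B

/-- `q` is an infinite projection: it is Murray-von Neumann equivalent to a proper
subprojection. -/
def IsInfiniteProjection (q : D) : Prop :=
  star q = q ∧ q * q = q ∧ ∃ w : D, star w * w = q ∧ w * star w * q = w * star w ∧
    w * star w ≠ q

variable (D) in
/-- Every nonzero hereditary C*-subalgebra contains an infinite projection. -/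
def IsPurelyInfinite : Prop :=
  ∀ B : NonUnitalStarSubalgebra ℂ D, IsClosed (B : Set D) → IsHereditary B →
    (∃ x ∈ B, x ≠ 0) → ∃ q ∈ B, IsInfiniteProjection q

/-- an isometry built from an almost scalar compression -/
lemma exists_isometry {y : D} {c : ℝ} (hc : 0 < c)
    (h : ‖star y * y - (c : ℂ) • (1 : D)‖ ≤ c / 2) : ∃ t : D, star (y * t) * (y * t) = 1 := by
  letI := CStarAlgebra.spectralOrder D
  haveI := CStarAlgebra.spectralOrderedRing D
  obtain ⟨z, hz⟩ : ∃ z, z = star y * y := ⟨_, rfl⟩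
  rw [← hz] at h
  have hz0 : 0 ≤ z := by rw [hz]; exact star_mul_self_nonneg y
  have hc0 : (c : ℂ) ≠ 0 := by exact_mod_cast hc.ne'
  have hu : IsUnit z := by
    have h1 : ‖1 - ((c : ℂ)⁻¹ • z)‖ < 1 := by
      have h2 : 1 - ((c : ℂ)⁻¹ • z) = -((c : ℂ)⁻¹ • (z - (c : ℂ) • (1 : D))) := by
        rw [smul_sub, smul_smul, inv_mul_cancel₀ hc0, one_smul]
        abel
      rw [h2, norm_neg, norm_smul, norm_inv, Complex.norm_real, Real.norm_eq_abs, abs_of_pos hc]
      calc c⁻¹ * ‖z - (c : ℂ) • (1 : D)‖ ≤ c⁻¹ * (c / 2) := by gcongr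
        _ = 1 / 2 := by field_simp
        _ < 1 := by norm_num
    have h3 : ((Units.oneSub (1 - ((c : ℂ)⁻¹ • z)) h1 : Dˣ) : D) = (c : ℂ)⁻¹ • z := by
      rw [Units.val_oneSub]; abel
    have h4 : IsUnit ((c : ℂ)⁻¹ • z) := ⟨_, h3⟩
    have h5 : z = (Units.mk0 (c : ℂ) hc0) • ((c : ℂ)⁻¹ • z) := by
      rw [Units.smul_mk0, smul_smul, mul_inv_cancel₀ hc0, one_smul]
    rw [h5]
    exact (isUnit_smul_iff _ _).mpr h4
  have hs : IsUnit (CFC.sqrt z) := (CFC.isUnit_sqrt_iff z hz0).mpr hu
  obtain ⟨g, hg⟩ := hs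
  have hgz : (g : D) * g = z := by rw [hg]; exact CFC.sqrt_mul_sqrt_self z hz0
  have hgs : star (g : D) = g := by
    rw [hg]; exact (IsSelfAdjoint.of_nonneg (CFC.sqrt_nonneg z)).star_eq
  have hinvs : star ((g⁻¹ : Dˣ) : D) = ((g⁻¹ : Dˣ) : D) := by
    have h1 : star ((g⁻¹ : Dˣ) : D) * g = 1 := by
      have := congrArg star (Units.mul_inv g)
      rw [star_mul, hgs, star_one] at this
      exact this
    calc star ((g⁻¹ : Dˣ) : D) = star ((g⁻¹ : Dˣ) : D) * (g * ((g⁻¹ : Dˣ) : D)) := by
          rw [Units.mul_inv, mul_one]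
      _ = ((g⁻¹ : Dˣ) : D) := by rw [← mul_assoc, h1, one_mul]
  refine ⟨((g⁻¹ : Dˣ) : D), ?_⟩
  rw [star_mul, hinvs]
  calc ((g⁻¹ : Dˣ) : D) * star y * (y * ((g⁻¹ : Dˣ) : D))
      = ((g⁻¹ : Dˣ) : D) * (star y * y) * ((g⁻¹ : Dˣ) : D) := by simp only [mul_assoc]
    _ = ((g⁻¹ : Dˣ) : D) * (g * g) * ((g⁻¹ : Dˣ) : D) := by rw [← hz, hgz]
    _ = (((g⁻¹ : Dˣ) : D) * g) * (g * ((g⁻¹ : Dˣ) : D)) := by simp only [mul_assoc]
    _ = 1 := by rw [Units.inv_mul, Units.mul_inv, one_mul]

/-- the range projection of an isometry of the form `x t` lies in each hereditary subalgebra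
containing `x` -/
lemma range_mem {B : NonUnitalStarSubalgebra ℂ D} (hB : IsHereditary B) {x : D} (hx : x ∈ B)
    (t : D) : (x * t) * star (x * t) ∈ B := by
  letI := CStarAlgebra.spectralOrder D
  haveI := CStarAlgebra.spectralOrderedRing D
  have h1 : 0 ≤ algebraMap ℝ D (‖t‖ ^ 2) - t * star t :=
    sub_nonneg.mpr CStarAlgebra.mul_star_le_algebraMap_norm_sq
  obtain ⟨d, hd⟩ := CStarAlgebra.nonneg_iff_eq_star_mul_self.mp h1
  refine hB _ ((‖t‖ ^ 2 : ℂ) • (x * star x)) ⟨star (x * t), by rw [star_star]⟩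
    ⟨d * star x, ?_⟩ (SMulMemClass.smul_mem _ (mul_mem hx (star_mem hx)))
  have h2 : algebraMap ℝ D (‖t‖ ^ 2) = (‖t‖ ^ 2 : ℂ) • (1 : D) := by
    rw [Algebra.algebraMap_eq_smul_one]
    rw [show ((‖t‖ : ℂ) ^ 2) = ((‖t‖ ^ 2 : ℝ) : ℂ) by push_cast; rfl, Complex.coe_smul]
  rw [h2] at hd
  rw [star_mul, star_mul, star_star]
  calc (‖t‖ ^ 2 : ℂ) • (x * star x) - x * t * (star t * star x)
      = x * ((‖t‖ ^ 2 : ℂ) • (1 : D) - t * star t) * star x := by
        rw [mul_sub, sub_mul]
        simp only [mul_smul_comm, smul_mul_assoc, mul_one, mul_assoc]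
    _ = x * star d * (d * star x) := by rw [hd]; simp only [mul_assoc]

/-- the range projection of an isometry is infinite if there is a nonunitary isometry -/
lemma infinite_range {v s : D} (hv : star v * v = 1) (hs : star s * s = 1) (hs' : s * star s ≠ 1) :
    IsInfiniteProjection (v * star v) := by
  refine ⟨by rw [star_mul, star_star], ?_, v * s * star v, ?_, ?_, ?_⟩
  · calc v * star v * (v * star v) = v * (star v * v) * star v := by simp only [mul_assoc]
      _ = _ := by rw [hv, mul_one]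
  · rw [star_mul, star_mul, star_star]
    calc v * (star s * star v) * (v * s * star v)
        = v * (star s * (star v * v) * s) * star v := by simp only [mul_assoc]
      _ = _ := by rw [hv, mul_one, hs, mul_one]
  · rw [star_mul, star_mul, star_star]
    calc v * s * star v * (v * (star s * star v)) * (v * star v)
        = v * s * star v * (v * (star s * (star v * v) * star v)) := by simp only [mul_assoc]
      _ = _ := by rw [hv, mul_one]
  · intro h
    apply hs'
    rw [star_mul, star_mul, star_star] at h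
    calc s * star s = (star v * v) * s * (star v * v) * star s * (star v * v) := by
          rw [hv]; simp
      _ = star v * (v * s * star v * (v * (star s * star v))) * v := by simp only [mul_assoc]
      _ = star v * (v * star v) * v := by rw [h]
      _ = (star v * v) * (star v * v) := by simp only [mul_assoc]
      _ = 1 := by rw [hv, one_mul]

end Defs

section OK

variable {K : Type u}

lemma exists_compress_self [Infinite K] {x : O K} (hx : x ≠ 0) :
    ∃ (b : O K) (c : ℝ), 0 < c ∧ ‖star (x * b) * (x * b) - (c : ℂ) • (1 : O K)‖ ≤ c / 2 := by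
  obtain ⟨w, hw⟩ := exists_delta_ne hx
  have hvy := vac_sw x w
  generalize hy : star (x * sw S w) * (x * sw S w) = y at hvy
  generalize hc : ‖(x : HH (List K) →L[ℂ] HH (List K)) (delta w)‖ ^ 2 = c at hvy
  have hcpos : 0 < c := by
    have : 0 < ‖(x : HH (List K) →L[ℂ] HH (List K)) (delta w)‖ := norm_pos_iff.mpr hw
    rw [← hc]
    positivity
  obtain ⟨p, hp, hyp⟩ := Metric.mem_closure_iff.mp (dense_mon y) (c / 4) (by linarith)
  rw [dist_eq_norm] at hyp
  obtain ⟨j, hj⟩ : ∃ j : K, j ∉ {j : K | compr j p ≠ vacOne K p} :=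
    (compr_finite hp).exists_notMem
  simp only [Set.mem_ofPred_eq, not_not] at hj
  refine ⟨sw S w * S j, c, hcpos, ?_⟩
  have h3 : star (x * (sw S w * S j)) * (x * (sw S w * S j)) = star (S j) * (y * S j) := by
    rw [← hy]
    simp only [star_mul, mul_assoc]
  rw [h3]
  exact compress_bound (S_cuntz.iso j) (vac K) vac_mem.2 y p c hvy hj hyp

lemma S_star_ne_one (k : K) : (S k : O K) * star (S k) ≠ 1 := by
  intro h
  have h1 := vac_mon_left k [] [k]
  rw [show mon S [k] [k] = S k * star (S k) by simp [mon], h, vac_one] at h1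
  exact one_ne_zero h1

theorem pureInf_O [Infinite K] : IsPurelyInfinite (O K) := by
  rintro B - hB ⟨x, hx, hx0⟩
  obtain ⟨b, c, hc, h⟩ := exists_compress_self hx0
  obtain ⟨t, ht⟩ := exists_isometry hc h
  obtain ⟨k⟩ : Nonempty K := inferInstance
  rw [mul_assoc] at ht
  exact ⟨(x * (b * t)) * star (x * (b * t)), range_mem hB hx _,
    infinite_range ht (S_cuntz.iso k) (S_star_ne_one k)⟩

theorem separable_O [Countable K] : TopologicalSpace.SeparableSpace (O K) := by
  have h1 : {x : O K | ∃ v w, x = mon S v w}.Countable := by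
    have : {x : O K | ∃ v w, x = mon S v w}
        = Set.range fun p : List K × List K => (mon S p.1 p.2 : O K) := by
      ext x
      constructor
      · rintro ⟨v, w, rfl⟩; exact ⟨(v, w), rfl⟩
      · rintro ⟨⟨v, w⟩, rfl⟩; exact ⟨v, w, rfl⟩
    rw [this]
    exact Set.countable_range _
  have h2 : TopologicalSpace.IsSeparable (Set.univ : Set (O K)) := by
    have h3 := (h1.isSeparable.span (R := ℂ)).closure
    refine h3.mono ?_
    intro x _
    exact dense_mon x
  exact TopologicalSpace.isSeparable_univ_iff.mp h2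

end OK

end Pool.Agent.V11109.Conj
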